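import Pool.Agent.Run7.h798.Tate.Complete

/-!
# MP_b685ef_ag, Q1: semisimplicity of Frobenius for complete varieties and cubic hypersurfaces

`D` is the `ℓ`-adic cohomology of the schemes in characteristic `p`: for a scheme `X` over the prime field
`h r j X` is the part of lowest weight of `H_{2j-r}(X̄, E)` (homology with closed supports), twisted by `-j`.
`L` is the cohomology `C K i X = H^i(X̄, E)` of the complete schemes over the finite fields `K` of
characteristic `p`.
-/

set_option autoImplicit false

open CategoryTheory AlgebraicGeometry Pool.Agent.Y116.UV Pool.Agent.Q193.LT Pool.Agent.Q282.UK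
  Pool.Agent.Q282.UZ Run7.h798.UV Run7.h798.Tate Run7.h798.Tate.Frob

namespace Pool.Agent.Results.MP_b685ef_ag.CubicHypersurfaces

/-- **Theorem.** Let `p` be a prime and `N` a natural number. The following are equivalent:

* (Q1) Frobenius is semisimple on the cohomology of all complete varieties over all finite fields of
  characteristic `p`;
* Frobenius is semisimple on the cohomology of all smooth projective varieties over these fields;
* Frobenius is semisimple on the cohomology of the (singular) cubic hypersurfaces in the projective spaces
  over `𝔽_p`;
* Frobenius is semisimple on the part of lowest weight of the homology `H_{2j-r}(V̄)` (the dual space of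
  the quotient of `H^{2j-r}(V̄)` of highest weight), `j ≥ N`, for the cubic hypersurfaces `V` over `𝔽_p` given
  by trilinear forms `∑_l z_l f_l(x, y)` in which every `f_l` is a sum of at most three monomials
  `x_i y_j`. -/
theorem result {p : ℕ} [Fact p.Prime] {E : Type} [Field E] [CharZero E] (D : Theory p E)
    (L : Complete D) (N : ℕ) :
    [L.AllComplete, ∀ r, D.SmoothProj r, L.CubicsComplete, ∀ r, D.Trilinear r N].TFAE :=
  main_complete L N

end Pool.Agent.Results.MP_b685ef_ag.CubicHypersurfaces
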