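import Pool.Agent.Run7.h514.SP.Main

/-!
# Semisimplicity of Frobenius for complete varieties covered by products of hyperkähler varieties

Let `V s`, `s ∈ S`, be projective hyperkähler varieties of any deformation types over a number field
`K`, and `σ` an element of the Galois group of `K`, for example a Frobenius element at a place of good
reduction with residue field `𝔽_q` (or a power of it, for an extension of the residue field). A vector
space over `ℚ_ℓ` with an endomorphism is called `Built` if it is obtained from the cohomology groups
`H^i(Y, ℚ_ℓ)` of products `Y` of copies of the `V s` (at a place of good reduction these are the
cohomology groups of the reductions of the `Y`) and from spaces with a semisimple endomorphism (such as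
the `H¹` of abelian varieties and curves, Weil) by Tate twists, tensor products, direct sums, subspaces
and quotients.

**Theorem.** Let `X` be a complete variety over `𝔽_q`, possibly singular and reducible, and suppose that
the graded pieces of the weight filtration of `H^i(X, ℚ_ℓ)` are built in this way. If `σ` acts
semisimply on the `H²(V s)`, then the Frobenius acts semisimply on `H^i(X, ℚ_ℓ)`.

The graded pieces are subquotients of the `H^j` of the terms of a proper hypercovering of `X` by smooth
projective varieties (Deligne, de Jong). So the theorem applies to all complete varieties with a
hypercovering by smooth projective varieties whose cohomology is built in this way: for example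
varieties with normal crossings whose strata are reductions of products of hyperkähler varieties, of
abelian varieties and curves, of projective bundles over such products and blow-ups of them along
subvarieties of the same kind, quotients by finite groups, and varieties dominated by such products.

Proof. Semisimplicity on the `H^i(Y)` is the theorem `ss_gal` (any deformation types, all degrees); it is
inherited by the operations. The graded pieces of different weights have no common eigenvalue, so the
product of their minimal polynomials is squarefree, and it kills the Frobenius of `H^i(X)`.
-/

set_option autoImplicit false

namespace Pool.Agent.Results.MP_b685ef_ag.HyperkaehlerHypercoverings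

open Run7.h457.MT Run7.h514.SP NumberField Pool.Agent.W401.Cheb

/-- **Semisimplicity of Frobenius for complete varieties.** `V s`: projective hyperkähler varieties
over the number field `K`; `σ`: an element of the Galois group of `K` with squarefree minimal polynomial
on each `H²(V s, ℚ_ℓ)`; `M = H^i(X, ℚ_ℓ)`, `X` complete over the field with `q` elements, with the
Frobenius `φ` and a weight filtration `w` whose graded pieces are built from the cohomology of products
of copies of the `V s` and from spaces on which semisimplicity is known. Then the minimal polynomial of
`φ` is squarefree. -/
theorem result {K : Type} [Field K] [NumberField K] {ℓ : ℕ} [Fact ℓ.Prime] {S : Type}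
    (V : S → HK K ℓ) {σ : GK K} (h : ∀ s, Squarefree (minpoly ℚ_[ℓ] ((V s).C.G 2 σ)))
    {q : ℕ} (hq : 1 < q) {i : ℕ} {M : Type} [AddCommGroup M] [Module ℚ_[ℓ] M]
    {φ : Module.End ℚ_[ℓ] M} (w : Weights V σ q i M φ) : Squarefree (minpoly ℚ_[ℓ] φ) :=
  main h hq w

end Pool.Agent.Results.MP_b685ef_ag.HyperkaehlerHypercoverings
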