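import Pool.Agent.Run7.h604.SY.Law

/-!
# The symmetric products of projective varieties and the semisimplicity of Frobenius
-/

set_option autoImplicit false

namespace Pool.Agent.Results.MP_b685ef_ag.SymmetricProductsLaw

open Pool.Agent.Run7.h604.SY Pool.Agent.Run7.h731.SE

universe u v

/-- Let `C` be a class of projective varieties over a finite field, possibly singular, closed under products and
symmetric products, with its `ℓ`-adic cohomology over an algebraically closed field `E` of characteristic zero.
If the Frobenius is not semisimple on `H ^ r (V)`, then the eigenvectors span at most the proportion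
`(b - 1) / (k + b - 1)` of the cohomology of the symmetric product of order `b' + k` of `V × V` (of `V`, if `r` is even),
whose Betti numbers have a sum which is bounded by a polynomial in `k`.
Hence the Frobenius is semisimple on the cohomology of all varieties of the class if and only if the average size of
its Jordan blocks is `b ^ o(1)`, `b` the sum of the Betti numbers, if and only if all Jordan blocks have size
`b ^ o(1)`, if and only if the eigenvectors span at least the proportion `φ (dim)` of the cohomology for a function
`φ > 0` with `d φ (d) → ∞`. -/
theorem result {E : Type u} [Field E] [IsAlgClosed E] [CharZero E] (C : ProjCohomology.{u, v} E) :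
    (∀ (V : C.Var) (r : ℕ), ¬ (C.H V r).Semisimple → Even r → C.Few V) ∧
    (∀ (V : C.Var) (r : ℕ), ¬ (C.H V r).Semisimple → C.Few (C.prod V V)) ∧
    [C.AllSemisimple, C.AverageSmall, C.BlocksSmall, C.ShareLarge].TFAE := by
  refine ⟨fun V r h hr => ?_, fun V r h => ?_, ?_⟩
  · exact ProjCohomology.few_of_even h hr
  · exact ProjCohomology.few_of_any h
  · tfae_have 1 → 3 := ProjCohomology.blocks_of_all
    tfae_have 3 → 2 := ProjCohomology.average_of_blocks
    tfae_have 2 → 1 := ProjCohomology.all_of_average
    tfae_have 1 → 4 := ProjCohomology.share_of_all
    tfae_have 4 → 1 := ProjCohomology.all_of_share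
    tfae_finish

end Pool.Agent.Results.MP_b685ef_ag.SymmetricProductsLaw
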