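import Pool.Agent.Run7.h711.PL.SelAll
import Pool.Agent.Run7.h886.PL.Fin

/-!
# Frobenius on the cohomology of complete varieties birational to quadratic twists of fibred surfaces

Let `k` be a finite field of odd characteristic with `q` elements, `K = k(t)`, and for `i = 1, ..., n` let `g_i ≥ 1` and let
`f_i = x ^ (2 g_i + 1) + f_{i, 2 g_i - 1} x ^ (2 g_i - 1) + ... + f_{i, 0}` be a polynomial over `k[t]` with
`deg f_{i, j} ≤ 2 N_i (2 g_i + 1 - j)`, `N_i ≥ 1`, such that the discriminant of `f_i` (with respect to `x`) is a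
squarefree polynomial in `t` and the polynomial over `k` formed by the coefficients of
`t ^ (2 N_i (2 g_i + 1 - j))` in the `f_{i, j}` is irreducible; the discriminants of the `f_i` are pairwise coprime. If the
characteristic is larger than `2 g_i + 1`, these `f_i` are a positive proportion of all the `f_i` with these bounds for the
degrees. For a squarefree `D` in `k[t]` prime to the discriminants let `Y_{i, D}` be a smooth projective model over
`k` of the surface `D(t) y ^ 2 = f_i(x, t)`, and let `J_i = J_{i, D}` be the Jacobian of its generic fibre over `K`.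

Let `X` be a COMPLETE variety over `k` of dimension at most two, not necessarily smooth, normal or irreducible,
all of whose components of dimension two are birational to some of the surfaces `Y_{i, D}`. The Frobenius `F` acts
semisimply on `H ^ j (X, ℚ_ℓ)` for `j ≠ 2` and on the parts of weight zero and one of `H ^ 2` (Weil; resolution of
the singularities of surfaces). The part of weight two of `H ^ 2` is contained in the sum of a space spanned by
classes of curves, on which a power of `F` is a scalar, and of the spaces `W_i = H ^ 1 (ℙ ^ 1, j_* R ^ 1 π_* ℚ_ℓ)` of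
dimension about `2 g_i deg D` of the surfaces `Y_{i, D}` which are used, so that the question for `X` is a question on
the image of `H ^ 2` in the sum of the `W_i`. The eigenspace of `F` on `W_i` for the eigenvalue `q` is
`Sel(J_i, ℤ_ℓ) ⊗ ℚ_ℓ` up to a twist, `Sel(J_i, ℤ_ℓ)` the inverse limit of the groups `Sel(J_i, ℓ ^ r)`; its dimension is
the number of the Jordan blocks of `F` on `W_i` for the eigenvalue `q`. Let `s_i = s_i(D)` be the binary logarithm of
the order of `Sel(J_i, 2)`. If `v` is a constant which is not a square in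
`k`, then `W_i(v D)` is `W_i(D)` with `F` replaced by `- F`.

**Theorem.** (1) For all the `D` and all `i`: `#Sel(J_i, 2) = 2 ^ (s_i) = #(J_i(K) / 2 J_i(K)) · #Sha(J_i)[2]`, `J_i(K)` has
no element of order two, and for all `r` the group `Sel(J_i, 2 ^ r)` has at most `2 ^ (r s_i)` elements. If
`s_i = 0`, multiplication by two is bijective on `J_i(K)` and the 2-primary part of `Sha(J_i)` is zero.

Fix the leading coefficient `u ≠ 0` in `k` and let `D` run through the squarefree polynomials of degree `m` with
leading coefficient `u` which are prime to the discriminants (at least `c q ^ m` polynomials, `c > 0`). The field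
`k` and the `f_i` are fixed, and `m` tends to infinity.

(2) The numbers `s_1(D), ..., s_n(D)` are independent with the law of Poonen and Rains: the proportion of the `D` with
`s_i(D) = s_i` for all `i` tends to `α_{s_1} ⋯ α_{s_n}`, `α_s = α_0 ∏_{j = 1}^s 2 / (2 ^ j - 1)`, `α_0 = 0.2097...`.
(3) The mean of `φ(s_1(D), ..., s_n(D))` tends to the mean of `φ` for this law for every `φ` of at most exponential
growth; the mean of `s_i(D)` tends to `1.2645 ± 0.0001`.
(4) For a single `f` and every constant `v ≠ 0` in `k`, for every large `m` more than `25.8` percent of the `D` have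
`s(D) ≤ 1` and `s(v D) ≤ 1`.

**Consequences for the question** (not formalised). For a proportion of `α_0 ^ n` of ALL the `D` the following holds
for all these complete varieties `X` and all the primes `ℓ` different from the characteristic: `F` is semisimple on
the generalized eigenspaces for the eigenvalue `q` of all the `H ^ j (X, ℚ_ℓ)` (Artin and Tate, Milne, Kato and Trihan),
and for a proportion of `α_0 ^ n` the same is true for the eigenvalue `- q`. For all `D` and `ℓ = 2` the number of the
Jordan blocks of `F` with the eigenvalue `q` on the image of `H ^ 2` in the sum of the `W_i` is at most the sum of the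
`s_i(D)` for the surfaces `Y_{i, D}` which are used, with the mean value `1.2645 ± 0.0001` for each of them, although the
dimension of the `W_i` tends to infinity. For one surface it is at most one for both `q` and `- q` for more than `25.8`
percent of the `D`.

The surfaces are of general type for `g_i ≥ 2` and large `deg D` and their geometric genus tends to infinity; the
field `k` is fixed, and the surfaces are all the twists in their natural order.

Proof. The law and the moments are the theorems of the projects PRL (helper286, with helpers 160, 209, 212, 215, 216,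
270, 303, 382, 416, 502, 547, 704, 711, 760, 803, 824, 847, 908, 957) and JPL (helper784, with helpers 56, 303, 382, 518,
803, 908, 957) on the basis of project TG (helper784 and many others) and the libraries TS (helper875), PJ and JB
(helper352), PP (helper874); the bound for `Sel(J, 2 ^ r)` and the part on the families are due to helper886, the
formulation with all Selmer groups to helper711. Project PRL is on the semisimplicity page for smooth surfaces in
`MP_1fe969_ag/TwistedSurfaces.lean`, which contains (4); the joint law and singular varieties are not there.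
-/

set_option autoImplicit false
set_option linter.all false

open Polynomial Filter IsDedekindDomain
open scoped Classical Topology

namespace Pool.Agent.Results.MP_b685ef_ag.TwistedSurfaces

open Pool.Agent.Y713.Jac (J)
open Pool.Agent.N352.Sha (UniquelyDivisible ShaTrivial)
open Run7.h286.SelDef (ShaTwo twoIndex NoTwoTorsion)
open Run7.h711.PL (Selmer selmerRank)

/-! ### The families and the twists -/

section defs

variable {k : Type} [Field k]

/-- The discriminant of the monic polynomial `f` of degree `2 g + 1` in `x` over `k[t]`, up to the sign: the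
resultant of `f` and its derivative. -/
noncomputable def discriminant (g : ℕ) (f : k[X][X]) : k[X] :=
  f.resultant (derivative f) (2 * g + 1) (2 * g)

/-- `f = x ^ (2 g + 1) + f_{2 g - 1} x ^ (2 g - 1) + ... + f_0` with `deg f_j ≤ M (2 g + 1 - j)`. -/
structure HasHeight (g M : ℕ) (f : k[X][X]) : Prop where
  monic : f.Monic
  degree : f.natDegree = 2 * g + 1
  trace : f.coeff (2 * g) = 0
  height : ∀ j ≤ 2 * g, (f.coeff j).natDegree ≤ M * (2 * g + 1 - j)

/-- The reduction of `f` at infinity, the polynomial `x ^ (2 g + 1) + ∑ r_j x ^ j` over `k` where `r_j` is the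
coefficient of `t ^ (M (2 g + 1 - j))` in `f_j`. -/
noncomputable def atInfinity (g M : ℕ) (f : k[X][X]) : k[X] :=
  X ^ (2 * g + 1) + ∑ j ∈ Finset.range (2 * g + 1), C ((f.coeff j).coeff (M * (2 * g + 1 - j))) * X ^ j

/-- The family: squarefree discriminant, irreducible reduction at infinity. -/
structure InFamily (g N : ℕ) (f : k[X][X]) : Prop extends HasHeight g (2 * N) f where
  inert : Irreducible (atInfinity g (2 * N) f)
  squarefree : Squarefree (discriminant g f)

/-- The squarefree polynomials of degree `m` with leading coefficient `u` which are prime to `Δ`. -/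
def Twists (Δ : k[X]) (u : k) (m : ℕ) : Set k[X] :=
  {D | D.leadingCoeff = u ∧ D.natDegree = m ∧ Squarefree D ∧ IsCoprime D Δ}

variable (K : Type) [Field K] [Algebra k[X] K]

/-- The monic equation `y ^ 2 = D ^ (2 g + 1) f(x / D)` of the quadratic twist `D y ^ 2 = f(x)` over
`K = k(t)`, the generic fibre of the surface `X_D`. -/
noncomputable def twist (f : k[X][X]) (D : k[X]) : K[X] := (f.scaleRoots D).map (algebraMap k[X] K)

variable [IsFractionRing k[X] K]

/-- The number `s(D)`, the binary logarithm of the order of `Sel(J, 2)` for the Jacobian `J` of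
`D y ^ 2 = f(x)`. -/
noncomputable def rank (f : k[X][X]) (D : k[X]) : ℕ := selmerRank k (twist K f D)

/-- Properties of the Jacobian `J` of one twist, with `s = s(D)`: `#Sel(J, 2) = 2 ^ s`, `J(K)` has no element of order
two, `#Sel(J, 2)` is the product of the orders of `J(K) / 2 J(K)` and `Sha(J)[2]`, the group `Sel(J, 2 ^ n)` has at most
`2 ^ (n s)` elements for all `n`; and if `s = 0`, then multiplication by two is bijective on `J(K)` and the 2-primary
part of the Tate-Shafarevich group is zero. -/
structure Properties (f : k[X][X]) (D : k[X]) : Prop where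
  order : Nat.card (Selmer k 2 (twist K f D)) = 2 ^ rank K f D
  torsion : NoTwoTorsion (J 2 (twist K f D) K)
  sequence : Nat.card (Selmer k 2 (twist K f D)) =
    twoIndex (J 2 (twist K f D) K) * Nat.card (ShaTwo k (twist K f D))
  all : ∀ n : ℕ, Finite (Selmer k (2 ^ n) (twist K f D)) ∧
    Nat.card (Selmer k (2 ^ n) (twist K f D)) ≤ 2 ^ (n * rank K f D)
  divisible : rank K f D = 0 → UniquelyDivisible 2 (J 2 (twist K f D) K)
  sha : rank K f D = 0 → ShaTrivial 2 (twist K f D) k[X]

/-- For every constant `v ≠ 0` more than `25.8` percent of the `D` in `Twists Δ u m`, `Δ` the discriminant of `f` and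
`m` large, have `s(D) ≤ 1` and `s(v D) ≤ 1`. -/
def BothSmall (g : ℕ) (f : k[X][X]) (u : k) : Prop :=
  ∀ v : k, v ≠ 0 → ∀ᶠ m : ℕ in atTop,
    (0.258 : ℝ) * ((Twists (discriminant g f) u m).ncard : ℝ) <
    (({D ∈ Twists (discriminant g f) u m | rank K f D ≤ 1 ∧ rank K f (C v * D) ≤ 1} :
      Set k[X]).ncard : ℝ)

end defs

/-- The sets `T m` of polynomials have at least `c q ^ m` elements for large `m`, `c > 0`. -/
def ManyIn {k : Type} [Field k] (T : ℕ → Set k[X]) : Prop :=
  ∃ c : ℝ, 0 < c ∧ ∀ᶠ m : ℕ in atTop, c * (Nat.card k : ℝ) ^ m ≤ ((T m).ncard : ℝ)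

/-- The proportion of the elements of `T m` with the property `P` tends to `a`. -/
def ProportionTendsTo {A : Type} (T : ℕ → Set A) (P : A → Prop) (a : ℝ) : Prop :=
  Tendsto (fun m => (({D ∈ T m | P D} : Set A).ncard : ℝ) / ((T m).ncard : ℝ)) atTop (𝓝 a)

/-- The mean of `φ` over `T m` tends to `a`. -/
def MeanTendsTo {A : Type} (T : ℕ → Set A) (φ : A → ℝ) (a : ℝ) : Prop :=
  Tendsto (fun m => (∑ᶠ D ∈ T m, φ D) / ((T m).ncard : ℝ)) atTop (𝓝 a)

/-- The weights `∏_{i = 1}^s 2 / (2 ^ i - 1)` of the limit law. -/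
noncomputable def weight (s : ℕ) : ℝ := ∏ i ∈ Finset.range s, (2 : ℝ) / (2 ^ (i + 1) - 1)

/-- The limit law. -/
noncomputable def α (s : ℕ) : ℝ := weight s / ∑' i, weight i

/-- The mean of `φ` for the limit law. -/
noncomputable def limitMean (φ : ℕ → ℝ) : ℝ := (∑' s, weight s * φ s) / ∑' s, weight s

/-- The joint law of the functions `r i` on the sets `T m`: the proportion of `r = s` tends to `∏ α_{s i}` for all `s`,
and the mean of `φ(r)` tends to the mean of `φ` for the product of the laws `α` for all `φ` of at most exponential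
growth. -/
structure HasJointLaw {A : Type} {n : ℕ} (T : ℕ → Set A) (r : A → Fin n → ℕ) : Prop where
  law : ∀ s : Fin n → ℕ, ProportionTendsTo T (fun D => r D = s) (∏ i, α (s i))
  means : ∀ φ : (Fin n → ℕ) → ℝ, (∃ B y : ℝ, ∀ s, |φ s| ≤ B * y ^ (∑ i, s i)) →
    MeanTendsTo T (fun D => φ (r D)) (∑' s, φ s * ∏ i, α (s i))

/-- The numbers: `∑ α_s = 1`, `1 / α_0 = ∏_{j ≥ 0} (1 + 2 ^ (-j))`, `0.20971 < α_0 < 0.20972`, the mean of `s` for the
limit law is `1.2645 ± 0.0001` and the mean of `2 ^ (j s)` is `(1 + 2) (1 + 4) ... (1 + 2 ^ j)`. -/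
structure Numbers : Prop where
  sum : HasSum α 1
  prod : HasProd (fun j : ℕ => 1 + (1 / 2 : ℝ) ^ j) (1 / α 0)
  lower : 0.20971 < α 0
  upper : α 0 < 0.20972
  mean : |limitMean (fun s => (s : ℝ)) - 1.2645| < 0.0001
  moments : ∀ j : ℕ, limitMean (fun s => ((2 : ℝ) ^ j) ^ s) = ∏ i ∈ Finset.Icc 1 j, (1 + (2 : ℝ) ^ i)

/-- A positive proportion of the `f` with `deg f_j ≤ 2 N (2 g + 1 - j)` is in the family, `N → ∞`. -/
def ManyFamilies (k : Type) [Field k] (g : ℕ) : Prop :=
  ∃ c : ℝ, 0 < c ∧ ∀ᶠ N : ℕ in atTop,
    0 < {f : k[X][X] | HasHeight g (2 * N) f}.ncard ∧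
    c * ({f : k[X][X] | HasHeight g (2 * N) f}.ncard : ℝ) ≤ ({f : k[X][X] | InFamily g N f}.ncard : ℝ)

/-! ### Comparison with the definitions of the proof -/

theorem inFam {k : Type} [Field k] {g N : ℕ} {f : k[X][X]} :
    InFamily g N f ↔ Run7.h886.TG.InFam g N f :=
  ⟨fun h => ⟨⟨h.monic, h.degree, h.trace, h.height⟩, h.inert, h.squarefree⟩,
    fun h => ⟨⟨h.ht.mon, h.ht.deg, h.ht.tr, h.ht.ht⟩, h.inert, h.sq⟩⟩

theorem α_eq (s : ℕ) : α s = Run7.h711.PL.al s := rfl

theorem numbers : Numbers := by
  obtain ⟨n1, n2, n3, n4, n5⟩ := Run7.h160.PL.num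
  have hW : Run7.h286.PL.wt = weight := rfl
  rw [hW] at n1 n2 n3 n4
  have hs : 4.76845 < ∑' i, weight i ∧ ∑' i, weight i < 4.76847 := by
    rw [abs_lt] at n4
    constructor <;> linarith [n4.1, n4.2]
  have h0 : α 0 = 1 / ∑' i, weight i := by
    unfold α
    rw [show weight 0 = 1 by simp [weight]]
  have hpos : 0 < ∑' i, weight i := by linarith [hs.1]
  refine ⟨Run7.h711.PL.al_sum, ?_, ?_, ?_, Run7.h547.PL.qid.2.2.2.2, Run7.h547.PL.qid.2.1⟩
  · rw [h0, one_div_one_div]
    exact n3
  · rw [h0, lt_div_iff₀ hpos]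
    nlinarith [hs.2]
  · rw [h0, div_lt_iff₀ hpos]
    nlinarith [hs.1]

theorem twJ_eq {k : Type} [Field k] {n : ℕ} (g : Fin n → ℕ) (f : Fin n → k[X][X]) (u : k) (m : ℕ) :
    Twists (∏ i, discriminant (g i) (f i)) u m = Run7.h784.JP.TwJ g f u m := by
  ext D
  refine and_congr_right fun _ => and_congr_right fun _ => and_congr_right fun _ => ?_
  rw [IsCoprime.prod_right_iff]
  exact ⟨fun h i => h i (Finset.mem_univ i), fun h i _ => h i⟩

theorem twu_of {k : Type} [Field k] {n : ℕ} {g : Fin n → ℕ} {f : Fin n → k[X][X]} {u : k} {m : ℕ}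
    {D : k[X]} (hD : D ∈ Twists (∏ i, discriminant (g i) (f i)) u m) (i : Fin n) :
    D ∈ Run7.h286.PL.Twu (g i) (f i) u m := by
  rw [twJ_eq] at hD
  exact ⟨hD.1, hD.2.1, hD.2.2.1, hD.2.2.2 i⟩

theorem joint_of {k : Type} [Field k] [Finite k] {n : ℕ} (hn : 1 ≤ n) (K : Type) [Field K]
    [Algebra k[X] K] [IsFractionRing k[X] K] {g N : Fin n → ℕ} {r : Fin n → k[X]}
    {f : Fin n → k[X][X]} (hF : Run7.h784.JP.JF g N r f) {u : k} (hu : u ≠ 0) :
    HasJointLaw (Twists (∏ i, discriminant (g i) (f i)) u) (fun D i => rank K (f i) D) := by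
  haveI : Nonempty (Fin n) := ⟨⟨0, hn⟩⟩
  have hT : ∀ m, Twists (∏ i, discriminant (g i) (f i)) u m = Run7.h784.JP.TwJ g f u m :=
    fun m => twJ_eq g f u m
  have hd : ∀ (m : ℕ), ∀ D ∈ Run7.h784.JP.TwJ g f u m, ∀ i,
      (fun D i => rank K (f i) D) D i = Run7.h286.PL.rkJ K ((f i).scaleRoots D) := by
    intro m D hD i
    rw [← hT m] at hD
    exact (Run7.h711.PL.one_all K (hF.fm i) hu (twu_of hD i)).1
  have hm : ∀ φ : (Fin n → ℕ) → ℝ, (∃ B y : ℝ, ∀ s, |φ s| ≤ B * y ^ (∑ i, s i)) →
      MeanTendsTo (Twists (∏ i, discriminant (g i) (f i)) u) (fun D => φ fun i => rank K (f i) D)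
        (∑' s, φ s * ∏ i, α (s i)) := by
    intro φ hφ
    have h := Run7.h886.PL.mean_of K hF hu (fun D i => rank K (f i) D) hd φ hφ
    unfold MeanTendsTo
    simp only [hT]
    exact h
  refine ⟨fun s => ?_, hm⟩
  have h := hm (fun d => if d = s then 1 else 0) ⟨1, 1, fun d => by
    rw [one_pow, mul_one]
    split_ifs <;> simp⟩
  have hs : ∑' d : Fin n → ℕ, (if d = s then (1 : ℝ) else 0) * ∏ i, α (d i) = ∏ i, α (s i) := by
    rw [tsum_eq_single s fun d hd => by rw [if_neg hd, zero_mul], if_pos rfl, one_mul]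
  rw [hs] at h
  unfold MeanTendsTo at h
  unfold ProportionTendsTo
  refine h.congr fun m => ?_
  have hfin : (Twists (∏ i, discriminant (g i) (f i)) u m).Finite := by
    rw [hT]
    exact Run7.h784.JP.twJ_fin hF hu m
  have e := Run7.h886.PL.ncard_sep hfin fun D => (fun i => rank K (f i) D) = s
  congr 1
  refine Eq.trans ?_ e
  refine finsum_mem_congr rfl fun D _ => ?_
  by_cases hD : (fun i => rank K (f i) D) = s
  · simp only [hD, if_true]
  · simp only [hD, if_false]

/-- Multiplication of a twist by a constant. -/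
theorem smul_mem {k : Type} [Field k] {Δ : k[X]} {u v : k} (hv : v ≠ 0) {m : ℕ}
    {D : k[X]} : C v * D ∈ Twists Δ (v * u) m ↔ D ∈ Twists Δ u m := by
  have hunit : IsUnit (C v : k[X]) := isUnit_C.2 (isUnit_iff_ne_zero.2 hv)
  unfold Twists
  simp only [Set.mem_setOf_eq]
  rw [leadingCoeff_mul, leadingCoeff_C, natDegree_C_mul hv, mul_right_inj' hv]
  refine and_congr_right fun _ => and_congr_right fun _ => and_congr ?_ ?_
  · constructor
    · intro h
      exact h.of_mul_right
    · intro h
      intro x hx
      exact h x ((hunit.dvd_mul_left).1 hx)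
  · exact isCoprime_mul_unit_left_left hunit _ _

theorem both {g N : ℕ} {k : Type} [Field k] [Finite k] (K : Type) [Field K] [Algebra k[X] K]
    [IsFractionRing k[X] K] {r : k[X]} {f : k[X][X]} (hF : Run7.h784.TG.Fm g N r f) {u : k}
    (hu : u ≠ 0) : BothSmall K g f u := by
  intro v hv
  have hvu : v * u ≠ 0 := mul_ne_zero hv hu
  have hinj : Function.Injective (fun D : k[X] => C v * D) := Run7.h286.PL.C_mul_inj hv
  -- the proportions for `u` and `v u`
  have h1 := Run7.h711.PL.le_one_rank K hF hu
  have h2 := Run7.h711.PL.le_one_rank K hF hvu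
  obtain ⟨c, hc, hmany⟩ := Run7.h711.PL.many hF hu
  have h0 : (0.20971 : ℝ) < Run7.h711.PL.al 0 := numbers.lower
  have h3 : (0.6291 : ℝ) < 3 * Run7.h711.PL.al 0 := by linarith
  have himg : ∀ m, Twists (discriminant g f) (v * u) m = (fun D : k[X] => C v * D) '' Twists (discriminant g f) u m := by
    intro m
    ext E
    constructor
    · intro hE
      have e : C v * (C v⁻¹ * E) = E := by
        rw [← mul_assoc, ← C_mul, mul_inv_cancel₀ hv, C_1, one_mul]
      refine ⟨C v⁻¹ * E, ?_, e⟩
      rw [← smul_mem (Δ := discriminant g f) (u := u) hv, e]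
      exact hE
    · rintro ⟨D, hD, rfl⟩
      exact (smul_mem hv).2 hD
  have hcard : ∀ m, (Twists (discriminant g f) (v * u) m).ncard = (Twists (discriminant g f) u m).ncard := by
    intro m
    rw [himg m, Set.ncard_image_of_injective _ hinj]
  have hsub : ∀ m, ({D ∈ Twists (discriminant g f) (v * u) m | rank K f D ≤ 1} : Set k[X]).ncard =
      ({D ∈ Twists (discriminant g f) u m | rank K f (C v * D) ≤ 1} : Set k[X]).ncard := by
    intro m
    have e : ({D ∈ Twists (discriminant g f) (v * u) m | rank K f D ≤ 1} : Set k[X]) =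
        (fun D : k[X] => C v * D) '' ({D ∈ Twists (discriminant g f) u m | rank K f (C v * D) ≤ 1}) := by
      rw [himg m]
      ext E
      constructor
      · rintro ⟨⟨D, hD, rfl⟩, hE⟩
        exact ⟨D, ⟨hD, hE⟩, rfl⟩
      · rintro ⟨D, ⟨hD, hE⟩, rfl⟩
        exact ⟨⟨D, hD, rfl⟩, hE⟩
    rw [e, Set.ncard_image_of_injective _ hinj]
  filter_upwards [hmany, h1.eventually (lt_mem_nhds h3), h2.eventually (lt_mem_nhds h3)] with
    m hm h4 h5
  have hq : (0 : ℝ) < Nat.card k := by exact_mod_cast Nat.card_pos
  have hpos : 0 < ((Twists (discriminant g f) u m).ncard : ℝ) := lt_of_lt_of_le (by positivity) hm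
  have h4' : (0.6291 : ℝ) * ((Twists (discriminant g f) u m).ncard : ℝ) <
      (({D ∈ Twists (discriminant g f) u m | rank K f D ≤ 1} : Set k[X]).ncard : ℝ) :=
    (lt_div_iff₀ hpos).1 h4
  have hpos' : 0 < ((Twists (discriminant g f) (v * u) m).ncard : ℝ) := by rw [hcard m]; exact hpos
  have h5' : (0.6291 : ℝ) * ((Twists (discriminant g f) u m).ncard : ℝ) <
      (({D ∈ Twists (discriminant g f) u m | rank K f (C v * D) ≤ 1} : Set k[X]).ncard : ℝ) := by
    have h := (lt_div_iff₀ hpos').1 h5
    rw [← hsub m, ← hcard m]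
    exact h
  have hfin : (Twists (discriminant g f) u m).Finite := Run7.h286.PL.twu_fin hF hu m
  have hA : ({D ∈ Twists (discriminant g f) u m | rank K f D ≤ 1} : Set k[X]).Finite := hfin.subset fun D h => h.1
  have hB : ({D ∈ Twists (discriminant g f) u m | rank K f (C v * D) ≤ 1} : Set k[X]).Finite :=
    hfin.subset fun D h => h.1
  have h6 := Set.ncard_union_add_ncard_inter
    ({D ∈ Twists (discriminant g f) u m | rank K f D ≤ 1} : Set k[X])
    ({D ∈ Twists (discriminant g f) u m | rank K f (C v * D) ≤ 1} : Set k[X]) hA hB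
  have h7 : (({D ∈ Twists (discriminant g f) u m | rank K f D ≤ 1} : Set k[X]) ∪
      ({D ∈ Twists (discriminant g f) u m | rank K f (C v * D) ≤ 1} : Set k[X])).ncard ≤
      (Twists (discriminant g f) u m).ncard :=
    Set.ncard_le_ncard (Set.union_subset (fun D h => h.1) fun D h => h.1) hfin
  have h8 : (({D ∈ Twists (discriminant g f) u m | rank K f D ≤ 1} : Set k[X]) ∩
      ({D ∈ Twists (discriminant g f) u m | rank K f (C v * D) ≤ 1} : Set k[X])) =
      ({D ∈ Twists (discriminant g f) u m | rank K f D ≤ 1 ∧ rank K f (C v * D) ≤ 1} : Set k[X]) := by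
    ext D
    exact ⟨fun h => ⟨h.1.1, h.1.2, h.2.2⟩, fun h => ⟨⟨h.1, h.2.1⟩, h.1, h.2.2⟩⟩
  rw [h8] at h6
  have h9 : ((({D ∈ Twists (discriminant g f) u m | rank K f D ≤ 1} : Set k[X]) ∪
      ({D ∈ Twists (discriminant g f) u m | rank K f (C v * D) ≤ 1} : Set k[X])).ncard : ℝ) +
      (({D ∈ Twists (discriminant g f) u m | rank K f D ≤ 1 ∧ rank K f (C v * D) ≤ 1} : Set k[X]).ncard : ℝ) =
      (({D ∈ Twists (discriminant g f) u m | rank K f D ≤ 1} : Set k[X]).ncard : ℝ) +
      (({D ∈ Twists (discriminant g f) u m | rank K f (C v * D) ≤ 1} : Set k[X]).ncard : ℝ) := by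
    exact_mod_cast h6
  have h10 : ((({D ∈ Twists (discriminant g f) u m | rank K f D ≤ 1} : Set k[X]) ∪
      ({D ∈ Twists (discriminant g f) u m | rank K f (C v * D) ≤ 1} : Set k[X])).ncard : ℝ) ≤
      ((Twists (discriminant g f) u m).ncard : ℝ) := by exact_mod_cast h7
  linarith

/-- **Theorem.** Let `k` be a finite field of odd characteristic with `q` elements, `K = k(t)`.

(A) Let `n ≥ 1` and let `f_1, ..., f_n` be polynomials of the families, with `g_i, N_i ≥ 1` and pairwise coprime
discriminants, and let `u ≠ 0` in `k`. Let `D` run through the squarefree polynomials of degree `m` with leading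
coefficient `u` which are prime to the discriminants. There are at least `c q ^ m` of them, `c > 0`, `m` large.
All the twists of the `f_i` by them have the properties `Properties`. For `m → ∞` the numbers
`s_1(D), ..., s_n(D)` have the joint law `α ⊗ ... ⊗ α`, with convergence of the means of all the functions of at most
exponential growth.
(B) For one `f` and every constant `v ≠ 0` more than `25.8` percent of the `D` have `s(D) ≤ 1` and `s(v D) ≤ 1`, `m`
large.
(C) The numerical values of the law.
(D) If the characteristic is larger than `2 g + 1`, a positive proportion of all `f` with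
`deg f_j ≤ 2 N (2 g + 1 - j)` belongs to the family. -/
theorem result (k : Type) [Field k] [Finite k] (h2 : (2 : k) ≠ 0)
    (K : Type) [Field K] [Algebra k[X] K] [IsFractionRing k[X] K] :
    (∀ (n : ℕ) (g N : Fin n → ℕ) (f : Fin n → k[X][X]) (u : k), 1 ≤ n → (∀ i, 1 ≤ g i) →
      (∀ i, 1 ≤ N i) → (∀ i, InFamily (g i) (N i) (f i)) →
      (∀ i j, i ≠ j → IsCoprime (discriminant (g i) (f i)) (discriminant (g j) (f j))) → u ≠ 0 →
      ManyIn (Twists (∏ i, discriminant (g i) (f i)) u) ∧
      (∀ m, ∀ D ∈ Twists (∏ i, discriminant (g i) (f i)) u m, ∀ i, Properties K (f i) D) ∧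
      HasJointLaw (Twists (∏ i, discriminant (g i) (f i)) u) (fun D i => rank K (f i) D)) ∧
    (∀ (g N : ℕ) (f : k[X][X]) (u : k), 1 ≤ g → 1 ≤ N → InFamily g N f → u ≠ 0 →
      BothSmall K g f u) ∧
    Numbers ∧
    ∀ g : ℕ, 1 ≤ g → ((2 * g + 1).factorial : k) ≠ 0 → ManyFamilies k g := by
  refine ⟨fun n g N f u hn hg hN hf hc hu => ?_, fun g N f u hg hN hf hu =>
    both K ((inFam.1 hf).fm hg hN h2) hu, numbers, fun g hg hp => ?_⟩
  · haveI : Nonempty (Fin n) := ⟨⟨0, hn⟩⟩
    have hF := Run7.h886.PL.jf_of h2 hg hN (fun i => inFam.1 (hf i)) hc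
    obtain ⟨c, hc0, hc1⟩ := Run7.h886.PL.size_one hF hu
    refine ⟨⟨c, hc0, ?_⟩, fun m D hD i => ?_, joint_of hn K hF hu⟩
    · filter_upwards [hc1] with m hm
      rw [twJ_eq]
      exact hm
    have hDi := twu_of hD i
    obtain ⟨h1, h2, h3, h4⟩ := Run7.h711.PL.one K (hF.fm i) hu hDi
    obtain ⟨a1, a2, a3, a4⟩ := Run7.h711.PL.one_all K (hF.fm i) hu hDi
    have hz : rank K (f i) D = 0 → Run7.h711.PL.size k (twist K (f i) D) = 1 := by
      intro h0
      have h5 : Run7.h286.PL.rkJ K ((f i).scaleRoots D) = 0 := by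
        rw [← a1]
        exact h0
      rw [h5, pow_zero] at h1
      exact h1
    have hr : rank K (f i) D = Run7.h286.PL.rkJ K ((f i).scaleRoots D) := a1
    refine ⟨?_, h2, a3, fun n => ?_, fun h => (h4 (hz h)).1, fun h => (h4 (hz h)).2⟩
    · rw [hr]
      exact a2
    · rw [hr]
      exact a4 n
  · obtain ⟨c, hc, h⟩ := Run7.h886.TG.fam_pos (k := k) g hg hp
    refine ⟨c, hc, ?_⟩
    filter_upwards [h] with N hN
    have e1 : {f : k[X][X] | HasHeight g (2 * N) f} =
        {f : k[X][X] | Pool.Agent.N352.PJ.Ht g (2 * N) f} := Set.ext fun f =>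
          ⟨fun h => ⟨h.monic, h.degree, h.trace, h.height⟩, fun h => ⟨h.mon, h.deg, h.tr, h.ht⟩⟩
    have e2 : {f : k[X][X] | InFamily g N f} = {f : k[X][X] | Run7.h886.TG.InFam g N f} :=
      Set.ext fun f => inFam
    rw [e1, e2]
    exact hN

end Pool.Agent.Results.MP_b685ef_ag.TwistedSurfaces
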